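import Mathlib
import Pool.Agent.Results.MP_2432f5_co.NoMaximalExtension

set_option autoImplicit false

namespace Pool.Agent.Results.MP_2432f5_co.UniqueExtension

open Pool.Agent.Results.MP_2432f5_co.NoMaximalExtension

/-- the first `n` letters of the infinite word `x` -/
def start (x : ℕ → Fin 5) (n : ℕ) : List (Fin 5) := (List.range n).map x

/-- the infinite word `x` is eventually periodic -/
def EventuallyPeriodic (x : ℕ → Fin 5) : Prop :=
  ∃ q n : ℕ, 1 ≤ q ∧ ∀ i, n ≤ i → x (i + q) = x i

theorem start_succ (x : ℕ → Fin 5) (n : ℕ) : start x (n + 1) = start x n ++ [x n] := by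
  simp [start, List.range_succ]

theorem start_length (x : ℕ → Fin 5) (n : ℕ) : (start x n).length = n := by
  simp [start]

/-- the period doubling word, from its sixteenth letter on -/
def dbl (i : ℕ) : Fin 5 := f (16 + i)

theorem Qm_add (n : ℕ) : Qm (16 + n) = Qm 16 ++ start dbl n := by
  induction n with
  | zero => simp [start]
  | succ n ih =>
    rw [show 16 + (n + 1) = (16 + n) + 1 by ring, Qm_succ, ih, start_succ, List.append_assoc]
    rfl

theorem not_periodic : ¬ EventuallyPeriodic dbl := by
  rintro ⟨q, n, hq, h⟩
  apply no_pow q hq (16 + n) (by omega)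
  intro s _
  have h1 := h (n + s) (by omega)
  unfold dbl at h1
  rw [show 16 + n + s = 16 + (n + s) by ring, show 16 + (n + s) + q = 16 + (n + s + q) by ring]
  exact h1.symm

theorem free_iff (s t : List (Fin 5)) :
    ¬ Enc pvar (s ++ ((Qm 16).reverse ++ Qm 16) ++ t) ↔
      s = (start dbl s.length).reverse ∧ t = start dbl t.length := by
  constructor
  · intro hu
    have h1 : Qm 16 ++ t = Qm (16 + t.length) := by
      apply forced
      intro h
      apply hu
      refine Enc_mono ?_ h
      exact ⟨s ++ (Qm 16).reverse, [], by simp only [List.append_assoc, List.append_nil]⟩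
    have h2 : Qm 16 ++ s.reverse = Qm (16 + s.length) := by
      rw [← List.length_reverse (as := s)]
      apply forced
      intro h
      apply hu
      have h' := Enc_reverse h
      rw [List.reverse_append, List.reverse_reverse] at h'
      refine Enc_mono ?_ h'
      exact ⟨[], Qm 16 ++ t, by simp only [List.append_assoc, List.nil_append]⟩
    rw [Qm_add] at h1 h2
    refine ⟨?_, List.append_cancel_left h1⟩
    rw [← List.append_cancel_left h2, List.reverse_reverse]
  · rintro ⟨hs, ht⟩
    have e : s ++ ((Qm 16).reverse ++ Qm 16) ++ t =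
        (Qm (16 + s.length)).reverse ++ Qm (16 + t.length) := by
      rw [Qm_add, Qm_add, List.reverse_append, ← hs, ← ht]
      simp only [List.append_assoc]
    rw [e]
    exact free_two _ _

/-- There are a pattern `p` without constants, a word `w` over five letters and an infinite word
`x` which is not eventually periodic such that the `p`-free words of the form `s w t` are exactly
those in which `t` is a beginning of `x` and `s` is a reversed beginning of `x`. So for all `m, n`
exactly one `p`-free word extends `w` by `m` letters to the left and `n` letters to the right, and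
no maximal `p`-free word has `w` as a factor. -/
theorem result :
    ∃ (p : List (Fin 5 ⊕ ℕ)) (w : List (Fin 5)) (x : ℕ → Fin 5),
      p ≠ [] ∧ (∀ y ∈ p, ∃ v : ℕ, y = Sum.inr v) ∧ ¬ EventuallyPeriodic x ∧
      (∀ s t : List (Fin 5), ¬ Encounters p (s ++ w ++ t) ↔
        s = (start x s.length).reverse ∧ t = start x t.length) ∧
      (∀ m n : ℕ, ∃! q : List (Fin 5) × List (Fin 5), q.1.length = m ∧ q.2.length = n ∧
        ¬ Encounters p (q.1 ++ w ++ q.2)) ∧
      ∀ u : List (Fin 5), ¬ Encounters p u → w <:+: u →
        ∃! q : Fin 5 × Fin 5, ¬ Encounters p ([q.1] ++ u ++ [q.2]) := by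
  have main : ∀ s t : List (Fin 5),
      ¬ Encounters (pvar.map Sum.inr) (s ++ ((Qm 16).reverse ++ Qm 16) ++ t) ↔
        s = (start dbl s.length).reverse ∧ t = start dbl t.length := by
    intro s t
    rw [encounters_iff]
    exact free_iff s t
  refine ⟨pvar.map Sum.inr, (Qm 16).reverse ++ Qm 16, dbl, ?_, ?_, not_periodic, main, ?_, ?_⟩
  · unfold pvar
    simp
  · intro x hx
    rw [List.mem_map] at hx
    obtain ⟨v, _, rfl⟩ := hx
    exact ⟨v, rfl⟩
  · intro m n
    refine ⟨((start dbl m).reverse, start dbl n), ⟨?_, ?_, ?_⟩, ?_⟩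
    · simp [start_length]
    · simp [start_length]
    · rw [main]
      simp [start_length]
    · rintro ⟨s, t⟩ ⟨hs, ht, h⟩
      rw [main] at h
      simp only at hs ht h
      rw [hs, ht] at h
      rw [← h.1, ← h.2]
  · rintro u hu ⟨s, t, rfl⟩
    have hst := (main s t).1 hu
    have key : ∀ a b : Fin 5, ¬ Encounters (pvar.map Sum.inr)
        ([a] ++ (s ++ ((Qm 16).reverse ++ Qm 16) ++ t) ++ [b]) ↔
        a = dbl s.length ∧ b = dbl t.length := by
      intro a b
      have e : [a] ++ (s ++ ((Qm 16).reverse ++ Qm 16) ++ t) ++ [b] =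
          (a :: s) ++ ((Qm 16).reverse ++ Qm 16) ++ (t ++ [b]) := by
        simp only [List.append_assoc, List.cons_append, List.nil_append]
      rw [e, main]
      rw [List.length_cons, start_succ, List.length_append, List.length_singleton, start_succ,
        List.reverse_append, ← hst.2]
      rw [← hst.1]
      simp
    refine ⟨(dbl s.length, dbl t.length), (key _ _).2 ⟨rfl, rfl⟩, ?_⟩
    rintro ⟨a, b⟩ h
    obtain ⟨h1, h2⟩ := (key a b).1 h
    rw [h1, h2]

end Pool.Agent.Results.MP_2432f5_co.UniqueExtension
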